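import Pool.Agent.Bidisc.Theta

/-!
# A non-split rational inner function with a non-open numerical range

For `θ(z, w) = (1 + z² + 4 w (1 + z + 2 z²)) / (8 + 4 z + 4 z² + w (1 + z²))`, a rational inner
function on the bidisc which is not a product `B₁(z) B₂(w)`, and for every Agler decomposition
`K_θ = N₁ ⊕ N₂`, the numerical range of `S¹_θ = P_{N₂} S_{z₁}|_{N₂}` is not open.
-/

namespace Pool.Agent.Results.MP_dfd7ce_an.NonOpenRange

open Pool.Agent.Bidisc

theorem result :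
    IsRIF theta ∧ ¬ IsSplit theta ∧
    (∃ N₁ N₂ : Sub22, IsAgler theta N₁ N₂) ∧
    ∀ N₁ N₂ : Sub22, IsAgler theta N₁ N₂ →
      ∀ _ : N₂.HasOrthogonalProjection, ¬ IsOpen (compressionRange N₂ M1) :=
  ⟨isRIF_theta, not_isSplit_theta, ⟨N1, N2, isAgler⟩, fun _ _ h _ => not_isOpen h⟩

end Pool.Agent.Results.MP_dfd7ce_an.NonOpenRange
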